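import Pool.Agent.V11195.PathProp

/-!
`5 ∈ J(n)` exactly for `n = 5` and `n ≥ 11`.
-/

namespace Pool.Agent.Results.MP_ccc55c_co.FiveExact

open Pool.Agent.V11195.PathProp

/-- `J(n)`: the `j ∈ {3,…,n}` such that for every `S ⊆ {3,…,n}`, `j` in the closure of `S`
implies `j ∈ S`. -/
def J (n : ℕ) : Set ℕ :=
  {j | 3 ≤ j ∧ j ≤ n ∧ ∀ S : Set ℕ, S ⊆ {i | 3 ≤ i ∧ i ≤ n} → j ∈ closure n S → j ∈ S}

section Lower

variable {V : Type} {G : SimpleGraph V}

lemma common (h3 : HasP G 3) {a b : V} (hab : a ≠ b) : ∃ c, G.Adj a c ∧ G.Adj c b := by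
  obtain ⟨l, h1, h2, h3, h4, h5⟩ := h3 a b hab
  match l, h1 with
  | [x, c, y], _ =>
    simp only [List.head?_cons, Option.some.injEq] at h4
    simp only [List.getLast?_cons_cons, List.getLast?_singleton, Option.some.injEq] at h5
    subst h4 h5
    simp only [List.isChain_cons_cons, List.isChain_singleton, and_true] at h3
    exact ⟨c, h3⟩

/-- A chain starting in `A`, with all its members in `A ∪ B`, stays in `A` if there are no edges
between `A` and `B`. -/
lemma chain_closed {A B : V → Prop} (hAB : ∀ a b, A a → B b → ¬ G.Adj a b) :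
    ∀ l : List V, l.IsChain G.Adj → (∀ x ∈ l, A x ∨ B x) → (∀ x, l.head? = some x → A x) →
      ∀ x ∈ l, A x := by
  intro l
  induction l with
  | nil => intro _ _ _ x hx; simp at hx
  | cons a l ih =>
    intro hc hall hhead x hx
    have ha : A a := hhead a rfl
    rcases List.mem_cons.mp hx with rfl | hx
    · exact ha
    · refine ih ?_ (fun y hy => hall y (List.mem_cons_of_mem _ hy)) ?_ x hx
      · exact hc.tail
      · intro y hy
        have hay : G.Adj a y := by
          cases l with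
          | nil => simp at hy
          | cons b l =>
            simp only [List.head?_cons, Option.some.injEq] at hy
            subst hy
            exact (List.isChain_cons_cons.mp hc).1
        rcases hall y (List.mem_cons_of_mem _ (List.mem_of_head? hy)) with h | h
        · exact h
        · exact absurd hay (hAB a y ha h)

variable [Fintype V]

lemma mem_of_full {l : List V} (h1 : l.length = Fintype.card V) (h2 : l.Nodup) (x : V) :
    x ∈ l := by
  classical
  have h3 : l.toFinset.card = Fintype.card V := by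
    rw [List.toFinset_card_of_nodup h2, h1]
  have h4 := (Finset.card_eq_iff_eq_univ _).mp h3
  have : x ∈ l.toFinset := by rw [h4]; exact Finset.mem_univ x
  simpa using this

/-- The main structural argument, under the assumption `N(u) \ v ⊆ N(v)`. -/
lemma eleven_aux (hn : 6 ≤ Fintype.card V) (h3 : HasP G 3) (hN : HasP G (Fintype.card V))
    {u v : V} (huv : u ≠ v)
    (h5 : ∀ x y z, x ≠ z → x ≠ v → z ≠ u → y ≠ u → y ≠ v → G.Adj u x → G.Adj x y →
      G.Adj y z → G.Adj z v → False)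
    (hsub : ∀ x, x ≠ v → G.Adj u x → G.Adj x v) : 11 ≤ Fintype.card V := by
  -- members of `W` are not adjacent to `u`
  have hWu : ∀ w, w ≠ v → ¬ G.Adj w v → ¬ G.Adj w u := fun w h1 h2 h3 =>
    h2 (hsub w h1 h3.symm)
  -- F2: every `w ∈ W` has a neighbour in `X`, and it is its only neighbour in `Z`
  have F2 : ∀ w, w ≠ u → w ≠ v → ¬ G.Adj w v → ∃ x, x ≠ v ∧ G.Adj u x ∧ G.Adj x w ∧
      ∀ z, z ≠ u → G.Adj z v → G.Adj w z → z = x := by
    intro w hwu hwv hw
    obtain ⟨c, h1, h2⟩ := common h3 hwu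
    have hcv : c ≠ v := by rintro rfl; exact hw h1
    refine ⟨c, hcv, h2.symm, h1.symm, ?_⟩
    intro z hzu hzv hwz
    by_contra hne
    exact h5 c w z (fun h => hne h.symm) hcv hzu hwu hwv h2.symm h1.symm hwz hzv
  -- F3: a vertex `y` adjacent to some `x ∈ X` has no other neighbour in `Z`
  have F3 : ∀ y x z, y ≠ u → y ≠ v → x ≠ v → G.Adj u x → G.Adj x y → z ≠ u → G.Adj z v →
      G.Adj y z → z = x := by
    intro y x z hyu hyv hxv hux hxy hzu hzv hyz
    by_contra hne
    exact h5 x y z (fun h => hne h.symm) hxv hzu hyu hyv hux hxy hyz hzv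
  -- `|X| ≥ 2`
  obtain ⟨x0, hx0u, hx0v⟩ := common h3 huv
  have hx0v' : x0 ≠ v := G.ne_of_adj hx0v
  have hx0u' : x0 ≠ u := (G.ne_of_adj hx0u).symm
  have hsecond : ∀ x, x ≠ v → G.Adj u x → ∃ x', x' ≠ v ∧ G.Adj u x' ∧ x' ≠ x := by
    intro x hxv hux
    by_contra hcon
    push Not at hcon
    -- Hamiltonian path from `x` to `v`
    obtain ⟨l, g1, g2, g3, g4, g5⟩ := hN x v hxv
    have hul := mem_of_full g1 g2 u
    obtain ⟨A, B, rfl⟩ := List.append_of_mem hul
    have hxu : x ≠ u := (G.ne_of_adj hux).symm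
    rw [List.isChain_append] at g3
    obtain ⟨gA, gB, gAB⟩ := g3
    rcases List.eq_nil_or_concat A with rfl | ⟨A', a, rfl⟩
    · simp at g4; exact hxu g4.symm
    · rw [List.concat_eq_append] at g1 g2 g4 gA gAB g5
      have hau : G.Adj a u := gAB a (by simp) u (by simp)
      cases B with
      | nil => simp at g5; exact huv g5
      | cons b B' =>
        have hub : G.Adj u b := (List.isChain_cons_cons.mp gB).1
        have hav : a ≠ v := by
          rintro rfl
          -- `v` is the last vertex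
          have : a ∈ u :: b :: B' := by
            apply List.mem_of_getLast?
            rw [← g5]
            rw [List.getLast?_append]
            cases hh : (u :: b :: B').getLast? with
            | none => simp at hh
            | some x => simp
          rw [List.nodup_append] at g2
          exact g2.2.2 a (by simp) a this rfl
        have hax : a = x := hcon a hav hau.symm
        subst hax
        have hA' : A' = [] := by
          rcases A' with _ | ⟨a', A''⟩
          · rfl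
          · exfalso
            simp at g4
            subst g4
            rw [List.nodup_append] at g2
            have := g2.1
            simp at this
        subst hA'
        by_cases hbv : b = v
        · subst hbv
          have hB' : B' = [] := by
            by_contra hne
            have hmem : b ∈ B' := by
              apply List.mem_of_getLast?
              rw [← g5]
              obtain ⟨c, C, rfl⟩ := List.exists_cons_of_ne_nil hne
              simp [List.getLast?_cons_cons]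
            rw [List.nodup_append] at g2
            have := g2.2.1
            simp at this
            exact this.2.1 hmem
          subst hB'
          simp at g1
          omega
        · have hba : b = a := hcon b hbv hub
          rw [List.nodup_append] at g2
          exact g2.2.2 a (by simp) b (by simp) hba.symm
  -- W is non-empty
  have hW : ∃ w, w ≠ u ∧ w ≠ v ∧ ¬ G.Adj w v := by
    by_contra hcon
    push Not at hcon
    obtain ⟨l, g1, g2, g3, g4, g5⟩ := hN u v huv
    match l, g1 with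
    | [], g1 => simp at g1; omega
    | [_], g1 => simp at g1; omega
    | [_, _], g1 => simp at g1; omega
    | [_, _, _], g1 => simp at g1; omega
    | [_, _, _, _], g1 => simp at g1; omega
    | p1 :: p2 :: p3 :: p4 :: p5 :: L, g1 =>
      simp only [List.head?_cons, Option.some.injEq] at g4
      subst g4
      have hlast : v ∈ p5 :: L := by
        apply List.mem_of_getLast?
        rw [← g5]
        simp only [List.getLast?_cons_cons]
      simp only [List.isChain_cons_cons] at g3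
      obtain ⟨e1, e2, e3, e4, _⟩ := g3
      simp only [List.nodup_cons, List.mem_cons, not_or] at g2
      obtain ⟨⟨n12, n13, n14, n15, n1L⟩, ⟨n23, n24, n25, n2L⟩, ⟨n34, n35, n3L⟩, ⟨n45, n4L⟩, _⟩ := g2
      have hv : v = p5 ∨ v ∈ L := by simpa using hlast
      have nv2 : p2 ≠ v := by rintro rfl; rcases hv with h | h; exact n25 h; exact n2L h
      have nv3 : p3 ≠ v := by rintro rfl; rcases hv with h | h; exact n35 h; exact n3L h
      have nv4 : p4 ≠ v := by rintro rfl; rcases hv with h | h; exact n45 h; exact n4L h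
      have := F3 p3 p2 p4 (fun h => n13 h.symm) nv3 nv2 e1 e2 (fun h => n14 h.symm)
        (hcon p4 (fun h => n14 h.symm) nv4) e3
      exact n24 this.symm
  -- `Z = X`
  have hZX : ∀ z, z ≠ u → G.Adj z v → G.Adj u z := by
    by_contra hcon
    push Not at hcon
    obtain ⟨z0, hz0u, hz0v, hz0⟩ := hcon
    have hz0v' : z0 ≠ v := G.ne_of_adj hz0v
    -- for each `w ∈ W` its `Z`-neighbour is adjacent to `z0`
    have key : ∀ w x, w ≠ u → w ≠ v → ¬ G.Adj w v → x ≠ v → G.Adj u x → G.Adj x w →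
        (∀ z, z ≠ u → G.Adj z v → G.Adj w z → z = x) → G.Adj x z0 := by
      intro w x hwu hwv hw hxv hux hxw huniq
      have hwz : w ≠ z0 := by rintro rfl; exact hw hz0v
      obtain ⟨c, hc1, hc2⟩ := common h3 hwz
      have hcu : c ≠ u := by rintro rfl; exact hWu w hwv hw hc1
      have hcv : c ≠ v := by rintro rfl; exact hw hc1
      by_cases hc : G.Adj c v
      · have := huniq c hcu hc hc1
        rwa [this] at hc2
      · exfalso
        obtain ⟨x', hx'v, hux', hx'c, huniq'⟩ := F2 c hcu hcv hc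
        have := huniq' z0 hz0u hz0v hc2
        exact hz0 (this ▸ hux')
    obtain ⟨w0, hw0u, hw0v, hw0⟩ := hW
    obtain ⟨x1, hx1v, hux1, hx1w, huniq⟩ := F2 w0 hw0u hw0v hw0
    have hx1z := key w0 x1 hw0u hw0v hw0 hx1v hux1 hx1w huniq
    obtain ⟨x2, hx2v, hux2, hx21⟩ := hsecond x1 hx1v hux1
    have hx1u : x1 ≠ u := (G.ne_of_adj hux1).symm
    have hx2u : x2 ≠ u := (G.ne_of_adj hux2).symm
    have hw0x2 : w0 ≠ x2 := by
      rintro rfl; exact hw0 (hsub w0 hw0v hux2)
    obtain ⟨c, hc1, hc2⟩ := common h3 hw0x2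
    have hcu : c ≠ u := by rintro rfl; exact hWu w0 hw0v hw0 hc1
    have hcv : c ≠ v := by rintro rfl; exact hw0 hc1
    by_cases hc : G.Adj c v
    · -- `c = x1 ~ x2`
      have hcx : c = x1 := huniq c hcu hc hc1
      subst hcx
      have := F3 c x2 z0 hcu hcv hx2v hux2 hc2.symm hz0u hz0v hx1z
      exact hz0 (this ▸ hux2)
    · obtain ⟨x', hx'v, hux', hx'c, huniq'⟩ := F2 c hcu hcv hc
      have hx2' : x2 = x' := huniq' x2 hx2u (hsub x2 hx2v hux2) hc2
      subst hx2'
      have hx2z := key c x2 hcu hcv hc hx2v hux2 hx'c huniq'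
      -- `z0` is adjacent to both `x1` and `x2`
      have := F3 z0 x1 x2 hz0u hz0v' hx1v hux1 hx1z hx2u (hsub x2 hx2v hux2) hx2z.symm
      exact hx21 this
  -- a third element of `X`
  have hthird : ∀ x1 x2, x1 ≠ v → x2 ≠ v → G.Adj u x1 → G.Adj u x2 → x1 ≠ x2 →
      ∃ x3, x3 ≠ v ∧ G.Adj u x3 ∧ x3 ≠ x1 ∧ x3 ≠ x2 := by
    intro x1 x2 hx1v hx2v hux1 hux2 h12
    by_contra hcon
    push Not at hcon
    obtain ⟨w0, hw0u, hw0v, hw0⟩ := hW
    obtain ⟨l, g1, g2, g3, g4, g5⟩ := hN x1 x2 h12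
    obtain ⟨l1, rfl⟩ := List.head?_eq_some_iff.mp g4
    have hl1 : l1 ≠ [] := by
      rintro rfl
      simp at g5
      exact h12 g5
    have g5' : l1.getLast? = some x2 := by
      obtain ⟨c, C, rfl⟩ := List.exists_cons_of_ne_nil hl1
      simpa using g5
    obtain ⟨l2, rfl⟩ := List.getLast?_eq_some_iff.mp g5'
    have hx1m : x1 ∉ l2 := by
      rw [List.nodup_cons] at g2
      intro h
      exact g2.1 (by simp [h])
    have hx2m : x2 ∉ l2 := by
      rw [List.nodup_cons, List.nodup_append] at g2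
      intro h
      exact g2.2.2.2 x2 h x2 (by simp) rfl
    have hchain : l2.IsChain G.Adj := by
      have := g3.tail
      simp only [List.tail_cons] at this
      exact (List.isChain_append.mp this).1
    have hmem : ∀ x, x ≠ x1 → x ≠ x2 → x ∈ l2 := by
      intro x h1 h2
      have := mem_of_full g1 g2 x
      simpa [h1, h2] using this
    have hx1u : x1 ≠ u := (G.ne_of_adj hux1).symm
    have hx2u : x2 ≠ u := (G.ne_of_adj hux2).symm
    -- the two parts
    let A : V → Prop := fun x => x = u ∨ x = v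
    let B : V → Prop := fun x => x ≠ u ∧ x ≠ v ∧ ¬ G.Adj x v
    have hAB : ∀ a b, A a → B b → ¬ G.Adj a b := by
      rintro a b (rfl | rfl) ⟨h1, h2, h3⟩ hadj
      · exact hWu b h2 h3 hadj.symm
      · exact h3 hadj.symm
    have hall : ∀ x ∈ l2, A x ∨ B x := by
      intro x hx
      by_cases hxu : x = u
      · exact Or.inl (Or.inl hxu)
      by_cases hxv : x = v
      · exact Or.inl (Or.inr hxv)
      right
      refine ⟨hxu, hxv, fun hadj => ?_⟩
      by_cases h1 : x = x1
      · exact hx1m (h1 ▸ hx)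
      · have := hcon x hxv (hZX x hxu hadj) h1
        exact hx2m (this ▸ hx)
    have hu : u ∈ l2 := hmem u hx1u.symm hx2u.symm
    have hw : w0 ∈ l2 := hmem w0 (by rintro rfl; exact hw0 (hsub _ hw0v hux1))
      (by rintro rfl; exact hw0 (hsub _ hw0v hux2))
    have hne : l2 ≠ [] := List.ne_nil_of_mem hu
    obtain ⟨h, t, rfl⟩ := List.exists_cons_of_ne_nil hne
    rcases hall h (by simp) with hh | hh
    · have := chain_closed hAB _ hchain hall (by intro x hx; simp at hx; exact hx ▸ hh) w0 hw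
      rcases this with h1 | h1
      · exact hw0u h1
      · exact hw0v h1
    · have hBA : ∀ a b, B a → A b → ¬ G.Adj a b := fun a b ha hb hadj => hAB b a hb ha hadj.symm
      have := chain_closed hBA _ hchain (fun x hx => (hall x hx).symm)
        (by intro x hx; simp at hx; exact hx ▸ hh) u hu
      exact this.1 rfl
  -- the classes `W_x` are non-empty
  have hstep : ∀ w x x', w ≠ u → w ≠ v → ¬ G.Adj w v → G.Adj x w →
      (∀ z, z ≠ u → G.Adj z v → G.Adj w z → z = x) → x' ≠ v → G.Adj u x' → x' ≠ x →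
      ¬ G.Adj x x' → ∃ w', w' ≠ u ∧ w' ≠ v ∧ ¬ G.Adj w' v ∧ G.Adj x' w' := by
    intro w x x' hwu hwv hw hxw huniq hx'v hux' hne hnadj
    have hwx' : w ≠ x' := by rintro rfl; exact hw (hsub _ hwv hux')
    obtain ⟨c, hc1, hc2⟩ := common h3 hwx'
    have hcu : c ≠ u := by rintro rfl; exact hWu w hwv hw hc1
    have hcv : c ≠ v := by rintro rfl; exact hw hc1
    refine ⟨c, hcu, hcv, ?_, hc2.symm⟩
    intro hc
    have := huniq c hcu hc hc1
    subst this
    exact hnadj hc2
  have hclass : ∀ x, x ≠ v → G.Adj u x → ∃ w, w ≠ u ∧ w ≠ v ∧ ¬ G.Adj w v ∧ G.Adj x w := by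
    intro x hxv hux
    obtain ⟨w0, hw0u, hw0v, hw0⟩ := hW
    obtain ⟨x1, hx1v, hux1, hx1w, huniq⟩ := F2 w0 hw0u hw0v hw0
    by_cases h1 : x = x1
    · subst h1; exact ⟨w0, hw0u, hw0v, hw0, hx1w⟩
    by_cases hadj : G.Adj x1 x
    · obtain ⟨x2, hx2v, hux2, hx21, hx2x⟩ := hthird x1 x hx1v hxv hux1 hux (fun h => h1 h.symm)
      have hxu : x ≠ u := (G.ne_of_adj hux).symm
      have hx1u : x1 ≠ u := (G.ne_of_adj hux1).symm
      have hx2u : x2 ≠ u := (G.ne_of_adj hux2).symm
      -- `x1 ≁ x2`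
      have hn12 : ¬ G.Adj x1 x2 := by
        intro h
        exact hx2x (F3 x1 x x2 hx1u hx1v hxv hux hadj.symm hx2u (hsub _ hx2v hux2) h)
      obtain ⟨w2, hw2u, hw2v, hw2, hx2w2⟩ := hstep w0 x1 x2 hw0u hw0v hw0 hx1w huniq hx2v hux2
        hx21 hn12
      obtain ⟨x2', hx2v', hux2', hx2w2', huniq2⟩ := F2 w2 hw2u hw2v hw2
      have : x2 = x2' := huniq2 x2 hx2u (hsub _ hx2v hux2) hx2w2.symm
      subst this
      have hn : ¬ G.Adj x2 x := by
        intro h
        exact hx21 (F3 x x1 x2 hxu hxv hx1v hux1 hadj hx2u (hsub _ hx2v hux2) h.symm)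
      exact hstep w2 x2 x hw2u hw2v hw2 hx2w2' huniq2 hxv hux (fun h => hx2x h.symm) hn
    · exact hstep w0 x1 x hw0u hw0v hw0 hx1w huniq hxv hux h1 hadj
  -- the classes have at least two members
  have htwo : ∀ x, x ≠ v → G.Adj u x → ∃ w w', w ≠ w' ∧ (w ≠ u ∧ w ≠ v ∧ ¬ G.Adj w v ∧ G.Adj x w) ∧
      (w' ≠ u ∧ w' ≠ v ∧ ¬ G.Adj w' v ∧ G.Adj x w') := by
    intro x hxv hux
    obtain ⟨w, hwu, hwv, hw, hxw⟩ := hclass x hxv hux
    have hxu : x ≠ u := (G.ne_of_adj hux).symm
    obtain ⟨x', hx'v, hux', hx'w, huniq⟩ := F2 w hwu hwv hw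
    have : x = x' := huniq x hxu (hsub _ hxv hux) hxw.symm
    subst this
    obtain ⟨c, hc1, hc2⟩ := common h3 (G.ne_of_adj hxw)
    have hcu : c ≠ u := by rintro rfl; exact hWu w hwv hw hc2.symm
    have hcv : c ≠ v := by rintro rfl; exact hw hc2.symm
    refine ⟨w, c, (G.ne_of_adj hc2).symm, ⟨hwu, hwv, hw, hxw⟩, ⟨hcu, hcv, ?_, hc1⟩⟩
    intro hc
    have := huniq c hcu hc hc2.symm
    subst this
    exact G.loopless.irrefl _ hc1
  -- different classes are disjoint
  have hdisj : ∀ x x' w w', x ≠ v → G.Adj u x → x' ≠ v → G.Adj u x' → x ≠ x' →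
      (w ≠ u ∧ w ≠ v ∧ ¬ G.Adj w v ∧ G.Adj x w) → (w' ≠ u ∧ w' ≠ v ∧ ¬ G.Adj w' v ∧ G.Adj x' w') →
      w ≠ w' := by
    intro x x' w w' hxv hux hx'v hux' hne hw hw'
    rintro rfl
    obtain ⟨y, hyv, huy, hyw, huniq⟩ := F2 w hw.1 hw.2.1 hw.2.2.1
    have e1 := huniq x (G.ne_of_adj hux).symm (hsub _ hxv hux) hw.2.2.2.symm
    have e2 := huniq x' (G.ne_of_adj hux').symm (hsub _ hx'v hux') hw'.2.2.2.symm
    exact hne (e1.trans e2.symm)
  -- assemble
  obtain ⟨x1, hx1v, hux1, hx10⟩ := hsecond x0 hx0v' hx0u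
  obtain ⟨x2, hx2v, hux2, hx20, hx21⟩ := hthird x0 x1 hx0v' hx1v hx0u hux1 (fun h => hx10 h.symm)
  obtain ⟨a0, b0, hab0, ha0, hb0⟩ := htwo x0 hx0v' hx0u
  obtain ⟨a1, b1, hab1, ha1, hb1⟩ := htwo x1 hx1v hux1
  obtain ⟨a2, b2, hab2, ha2, hb2⟩ := htwo x2 hx2v hux2
  have hXW : ∀ x w, x ≠ v → G.Adj u x → (w ≠ u ∧ w ≠ v ∧ ¬ G.Adj w v) → x ≠ w := by
    rintro x w hxv hux hw rfl
    exact hw.2.2 (hsub _ hxv hux)
  have d1 := hdisj x0 x1 a0 a1 hx0v' hx0u hx1v hux1 hx10.symm ha0 ha1
  have d2 := hdisj x0 x1 a0 b1 hx0v' hx0u hx1v hux1 hx10.symm ha0 hb1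
  have d3 := hdisj x0 x1 b0 a1 hx0v' hx0u hx1v hux1 hx10.symm hb0 ha1
  have d4 := hdisj x0 x1 b0 b1 hx0v' hx0u hx1v hux1 hx10.symm hb0 hb1
  have d5 := hdisj x0 x2 a0 a2 hx0v' hx0u hx2v hux2 hx20.symm ha0 ha2
  have d6 := hdisj x0 x2 a0 b2 hx0v' hx0u hx2v hux2 hx20.symm ha0 hb2
  have d7 := hdisj x0 x2 b0 a2 hx0v' hx0u hx2v hux2 hx20.symm hb0 ha2
  have d8 := hdisj x0 x2 b0 b2 hx0v' hx0u hx2v hux2 hx20.symm hb0 hb2
  have d9 := hdisj x1 x2 a1 a2 hx1v hux1 hx2v hux2 hx21.symm ha1 ha2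
  have d10 := hdisj x1 x2 a1 b2 hx1v hux1 hx2v hux2 hx21.symm ha1 hb2
  have d11 := hdisj x1 x2 b1 a2 hx1v hux1 hx2v hux2 hx21.symm hb1 ha2
  have d12 := hdisj x1 x2 b1 b2 hx1v hux1 hx2v hux2 hx21.symm hb1 hb2
  have W : ∀ w ∈ [a0, b0, a1, b1, a2, b2], w ≠ u ∧ w ≠ v ∧ ¬ G.Adj w v := by
    intro w hw
    simp only [List.mem_cons, List.not_mem_nil, or_false] at hw
    rcases hw with rfl | rfl | rfl | rfl | rfl | rfl
    · exact ⟨ha0.1, ha0.2.1, ha0.2.2.1⟩
    · exact ⟨hb0.1, hb0.2.1, hb0.2.2.1⟩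
    · exact ⟨ha1.1, ha1.2.1, ha1.2.2.1⟩
    · exact ⟨hb1.1, hb1.2.1, hb1.2.2.1⟩
    · exact ⟨ha2.1, ha2.2.1, ha2.2.2.1⟩
    · exact ⟨hb2.1, hb2.2.1, hb2.2.2.1⟩
  have X : ∀ x ∈ [x0, x1, x2], x ≠ v ∧ G.Adj u x := by
    intro x hx
    simp only [List.mem_cons, List.not_mem_nil, or_false] at hx
    rcases hx with rfl | rfl | rfl
    · exact ⟨hx0v', hx0u⟩
    · exact ⟨hx1v, hux1⟩
    · exact ⟨hx2v, hux2⟩
  have hnd : ([u, v] ++ ([x0, x1, x2] ++ [a0, b0, a1, b1, a2, b2])).Nodup := by
    rw [List.nodup_append, List.nodup_append]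
    refine ⟨by simpa using huv, ⟨?_, ?_, ?_⟩, ?_⟩
    · simp [hx10.symm, hx20.symm, hx21.symm]
    · simp [hab0, hab1, hab2, d1, d2, d3, d4, d5, d6, d7, d8, d9, d10, d11, d12]
    · intro x hx w hw
      exact hXW x w (X x hx).1 (X x hx).2 (W w hw)
    · intro y hy z hz
      rcases List.mem_append.mp hz with hz | hz
      · simp only [List.mem_cons, List.not_mem_nil, or_false] at hy
        rcases hy with rfl | rfl
        · exact G.ne_of_adj (X z hz).2
        · exact (X z hz).1.symm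
      · simp only [List.mem_cons, List.not_mem_nil, or_false] at hy
        rcases hy with rfl | rfl
        · exact (W z hz).1.symm
        · exact (W z hz).2.1.symm
  have := hnd.length_le_card
  simpa using this

/-- A graph of order `n ≥ 6` with `P_3` and `P_n` but not `P_5` has at least `11` vertices. -/
theorem order_ge_eleven (hn : 6 ≤ Fintype.card V) (h3 : HasP G 3)
    (hN : HasP G (Fintype.card V)) (h5 : ¬ HasP G 5) : 11 ≤ Fintype.card V := by
  unfold HasP at h5
  push Not at h5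
  obtain ⟨u, v, huv, h5⟩ := h5
  rw [joined_five] at h5
  push Not at h5
  have h5' : ∀ x y z, x ≠ z → x ≠ v → z ≠ u → y ≠ u → y ≠ v → G.Adj u x → G.Adj x y →
      G.Adj y z → G.Adj z v → False := by
    intro x y z hxz hxv hzu hyu hyv e1 e2 e3 e4
    refine h5 x y z ?_ e1 e2 e3 e4
    have n1 := G.ne_of_adj e1
    have n2 := G.ne_of_adj e2
    have n3 := G.ne_of_adj e3
    have n4 := G.ne_of_adj e4
    simp [n1, n2, n3, n4, hxz, hxv, hyv, hzu.symm, hyu.symm, huv]
  by_cases hsub : ∀ x, x ≠ v → G.Adj u x → G.Adj x v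
  · exact eleven_aux hn h3 hN huv h5' hsub
  · push Not at hsub
    obtain ⟨x, hxv, hux, hxv'⟩ := hsub
    refine eleven_aux hn h3 hN huv.symm
      (fun a b c hac hau hcv hbv hbu e1 e2 e3 e4 => h5' c b a hac.symm hcv hau hbu hbv
        e4.symm e3.symm e2.symm e1.symm) ?_
    intro z hzu hvz
    by_contra hzu'
    have hxz : x ≠ z := by
      rintro rfl
      exact hxv' hvz.symm
    obtain ⟨c, hc1, hc2⟩ := common h3 hxz
    by_cases hcu : c = u
    · subst hcu; exact hzu' hc2.symm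
    by_cases hcv : c = v
    · subst hcv; exact hxv' hc1
    exact h5' x c z hxz hxv hzu hcu hcv hux hc1 hc2 hvz.symm

end Lower

/-! ### Order five -/

/-- Neighbour lists of a graph of order `5`. -/
def nb5 : Fin 5 → List (Fin 5) := ![[3, 4], [2, 3, 4], [1, 3, 4], [0, 1, 2, 4], [0, 1, 2, 3]]

/-- A graph of order `5` with `P_3`, `P_4` but not `P_5`. -/
def g5 : SimpleGraph (Fin 5) where
  Adj a b := b ∈ nb5 a
  symm := ⟨by decide⟩
  loopless := ⟨by decide⟩

instance : DecidableRel g5.Adj := fun a b => inferInstanceAs (Decidable (b ∈ nb5 a))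

lemma g5_three : HasP g5 3 := by
  have h : ∀ u v : Fin 5, u ≠ v → ∃ c, ([u, c, v] : List (Fin 5)).Nodup ∧
      ([u, c, v] : List (Fin 5)).IsChain g5.Adj := by decide
  intro u v huv
  obtain ⟨c, h1, h2⟩ := h u v huv
  exact ⟨[u, c, v], rfl, h1, h2, rfl, rfl⟩

lemma g5_four : HasP g5 4 := by
  have h : ∀ u v : Fin 5, u ≠ v → ∃ c d, ([u, c, d, v] : List (Fin 5)).Nodup ∧
      ([u, c, d, v] : List (Fin 5)).IsChain g5.Adj := by decide
  intro u v huv
  obtain ⟨c, d, h1, h2⟩ := h u v huv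
  exact ⟨[u, c, d, v], rfl, h1, h2, rfl, rfl⟩

lemma g5_not_five : ¬ HasP g5 5 := by
  intro h
  have h' := h 3 4 (by decide)
  rw [joined_five] at h'
  have hd : ∀ a b c : Fin 5, ¬ (([3, a, b, c, 4] : List (Fin 5)).Nodup ∧ g5.Adj 3 a ∧
      g5.Adj a b ∧ g5.Adj b c ∧ g5.Adj c 4) := by decide
  obtain ⟨a, b, c, h''⟩ := h'
  exact hd a b c h''

/-- **Main theorem.** `5 ∈ J(n)` if and only if `n = 5` or `n ≥ 11`. -/
theorem result (n : ℕ) : 5 ∈ J n ↔ n = 5 ∨ 11 ≤ n := by
  constructor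
  · rintro ⟨-, h5n, h⟩
    by_contra hcon
    push Not at hcon
    obtain ⟨hn5, hn11⟩ := hcon
    have h1 := h {i | 3 ≤ i ∧ i ≤ n ∧ i ≠ 5} (fun i hi => ⟨hi.1, hi.2.1⟩) ?_
    · exact h1.2.2 rfl
    · refine ⟨by norm_num, h5n, ?_⟩
      intro V _ G hcard hP
      by_contra h5
      have := order_ge_eleven (G := G) (by omega) (hP 3 ⟨le_rfl, by omega, by norm_num⟩)
        (by rw [hcard]; exact hP n ⟨by omega, le_rfl, by omega⟩) h5
      omega
  · rintro (rfl | hn)
    · refine ⟨by norm_num, le_rfl, ?_⟩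
      intro S hS h5
      by_contra hne
      refine g5_not_five (h5.2.2 (Fin 5) g5 (by simp) ?_)
      intro i hi
      have h1 := hS hi
      have h2 : i ≠ 5 := fun h => hne (h ▸ hi)
      have h3 : i = 3 ∨ i = 4 := by
        have := h1.1; have := h1.2; omega
      rcases h3 with rfl | rfl
      · exact g5_three
      · exact g5_four
    · refine ⟨by norm_num, by omega, ?_⟩
      intro S hS h5
      by_contra hne
      obtain ⟨V, i1, G, hcard, hP, hnot⟩ := exists_graph n hn
      refine hnot (h5.2.2 V G hcard ?_)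
      intro i hi
      exact hP i (hS hi).1 (hS hi).2 (fun h => hne (h ▸ hi))

end Pool.Agent.Results.MP_ccc55c_co.FiveExact
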